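import Pool.Agent.V11235.Prim

namespace Pool.Agent.Results.MP_51e3d2_lc.Decidable

open Pool.Agent.V11235.Prim Pool.Agent.H877R3.HSC

/-- There is a computable function which, given the tables of the operations of a finite Heyting
algebra `A` (under any numbering `e` of its elements), decides whether `Q(A)` is primitive. -/
theorem result :
    ∃ f : List ℕ → Bool, Computable f ∧
      ∀ (A : Type) [HeytingAlgebra A] (n : ℕ) (e : A ≃ Fin n),
        f (tables e) = true ↔ Primitive A :=
  primitive_decidable

end Pool.Agent.Results.MP_51e3d2_lc.Decidable
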